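import Mathlib
import Pool.Agent.H317.GI.Stm

/-! # Project GI: distorted elements (assembly) -/

set_option autoImplicit false

namespace Pool.Agent.H328.GI

open Matrix Module Pool.Agent.H317.GR Pool.Agent.H317.GH Pool.Agent.H317.GI

lemma mapMatrix_eq_zero (K : Type) [Field K] [CharZero K] (M : Matrix (Fin 3) (Fin 3) ℤ)
    (h : (Int.castRingHom K).mapMatrix M = 0) : M = 0 := by
  ext i j
  have h1 := congrFun (congrFun h i) j
  have h2 : ((M i j : ℤ) : K) = 0 := h1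
  exact_mod_cast h2

theorem dis : S_EMU → S_CPX → S_DST → S_CH3 → S_CUN → S_UR2 → S_DIS := by
  intro hEMU hCPX hDST hCH3 hCUN hUR2 Λ _ hG x y hxy hind hdist
  have h2p : Fact (Nat.Prime 2) := ⟨Nat.prime_two⟩
  obtain ⟨ρ, ψ, hinj, htr, hint⟩ := hEMU Λ hG
  have hFG : Group.FG Λ := hG.1
  let K := AlgebraicClosure ℚ_[2]
  let ρK : Λ →* GL (Fin 3) K :=
    (GeneralLinearGroup.map (algebraMap ℚ_[2] K)).comp ((toQ 3 2).comp ρ)
  let j : ℤ_[2] →+* K := (algebraMap ℚ_[2] K).comp (algebraMap ℤ_[2] ℚ_[2])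
  have hval : ∀ g, (ρK g).val = j.mapMatrix (ρ g).val := fun g => rfl
  have htrK : ∀ g, (ρK g).val.trace = (ψ g : K) := by
    intro g
    have h1 := htr g
    rw [hval, Matrix.trace_fin_three]
    rw [Matrix.trace_fin_three] at h1
    change j ((ρ g).val 0 0) + j ((ρ g).val 1 1) + j ((ρ g).val 2 2) = _
    rw [← map_add, ← map_add, h1, map_intCast]
  obtain ⟨ρ', hρ'⟩ := hCPX K Λ 3 ρK ψ htrK
  obtain ⟨N, hN, h1, h2⟩ := hDST Λ ρ' ψ hρ' x hdist
  have h3 : ((ρ (x ^ N)).val - 1) ^ 3 = 0 := by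
    apply hCH3 ℤ_[2] (ρ (x ^ N))
    · rw [htr, h1]
      norm_num
    · rw [← map_inv, htr, h2]
      norm_num
  have hne : x ^ N ≠ 1 := by
    intro h
    have h4 := hind N 0 (by rw [zpow_natCast, h, zpow_zero])
    omega
  obtain ⟨σ, P, hσ, hPD, hP⟩ := hint (x ^ N) hne h3
  have hB3 : ((ρK (x ^ N)).val - 1) ^ 3 = 0 := by
    rw [hval, ← map_one j.mapMatrix, ← map_sub, ← map_pow, h3, map_zero]
  have hA : (std 3 K (σ (x ^ N))).val = (Int.castRingHom K).mapMatrix (σ (x ^ N)).val := rfl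
  have hPv : (std 3 K (σ (x ^ N))).val * P.val = P.val * (ρK (x ^ N)).val :=
    congrArg Units.val (hP (x ^ N))
  have hsc : SemiconjBy P.val ((ρK (x ^ N)).val - 1) ((std 3 K (σ (x ^ N))).val - 1) := by
    unfold SemiconjBy
    rw [sub_mul, mul_sub, one_mul, mul_one, hPv]
  have hA3 : ((std 3 K (σ (x ^ N))).val - 1) ^ 3 = 0 := by
    have h4 := (hsc.pow_right 3).eq
    rw [hB3, mul_zero] at h4
    exact (Units.mul_left_eq_zero P).1 h4.symm
  have h4 : ((σ (x ^ N)).val - 1) ^ 3 = 0 := by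
    rw [hA, ← map_one (Int.castRingHom K).mapMatrix, ← map_sub, ← map_pow] at hA3
    exact mapMatrix_eq_zero K _ hA3
  have hX1 : σ (x ^ N) ≠ 1 := by
    intro h
    exact hne (hσ (h.trans (map_one σ).symm))
  have hcom : Commute (x ^ N) y := (show Commute x y from hxy).pow_left N
  have hXY : σ (x ^ N) * σ y = σ y * σ (x ^ N) := by
    rw [← map_mul, ← map_mul, hcom.eq]
  have h5 := hCUN (σ (x ^ N)) (σ y) hX1 h4 hXY
  refine hUR2 Λ σ hσ hPD (σ (x ^ N)) ((σ y) ^ 2) ⟨x ^ N, rfl⟩ ⟨y ^ 2, map_pow σ y 2⟩ h4 h5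
    ((show Commute (σ (x ^ N)) (σ y) from hXY).pow_right 2).eq ?_
  intro a b hab
  have h6 : σ ((x ^ N) ^ a) = σ ((y ^ 2) ^ b) := by
    rw [map_zpow, map_zpow, map_pow σ y 2]
    exact hab
  have h7 := hσ h6
  have h8 := hind (N * a) (2 * b) (by
    rw [_root_.zpow_mul, _root_.zpow_mul, zpow_natCast, h7]
    norm_cast)
  obtain ⟨h9, h10⟩ := h8
  constructor
  · rcases mul_eq_zero.1 h9 with h | h
    · omega
    · exact h
  · omega

end Pool.Agent.H328.GI
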